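import Pool.Agent.V7H81.SV.Lower

/-!
# Gaussian Schur multipliers on far pairs

If the entries of `X` at the pairs with `|a i - b k| ^ 2 < U` vanish, then the Schur product of `X`
with `exp (-l |a i - b k| ^ 2)` has norm at most `exp (-(l - x) U) (l / x) ^ (K / 2)` times the norm
of `X`, for all `0 < x ≤ l`.
-/

set_option autoImplicit false

open MeasureTheory Complex Filter Topology

namespace Pool.Agent.V7H81.SV

variable {ι κ : Type*} [Fintype ι] [Fintype κ]

lemma sqrt_pow_eq {r : ℝ} (hr : 0 < r) (K : ℕ) :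
    √r ^ K = Real.exp ((K / 2 : ℝ) * Real.log r) := by
  have h1 : √r = Real.exp (1 / 2 * Real.log r) := by
    rw [Real.sqrt_eq_rpow, Real.rpow_def_of_pos hr]
    congr 1
    ring
  rw [h1, ← Real.exp_nat_mul]
  congr 1
  ring

theorem block {K : ℕ} {X : ι → κ → ℂ} {c : ℝ} (hX : BB X c)
    (a : ι → Fin K → ℝ) (b : κ → Fin K → ℝ) {U : ℝ}
    (hfar : ∀ i k, X i k ≠ 0 → U ≤ dsq (a i) (b k)) {l x : ℝ} (hx : 0 < x) (hxl : x ≤ l) :
    BB (fun i k => (Real.exp (-l * dsq (a i) (b k)) : ℂ) * X i k)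
      (Real.exp (-(l - x) * U) * √(l / x) ^ K * c) := by
  intro φ ψ
  have hl : 0 < l := lt_of_lt_of_le hx hxl
  set N : ℝ := (∑ i, ‖φ i‖ ^ 2 + ∑ k, ‖ψ k‖ ^ 2) / 2 with hN
  -- the analytic function
  set S : ℂ → ℂ := fun w => ∑ i, ∑ k, φ i * (cexp (-(w + x) * ((dsq (a i) (b k) - U : ℝ) : ℂ)) *
    X i k) * ψ k with hS
  set g : ℂ → ℂ := fun w => cexp (-((K / 2 : ℝ) : ℂ) * Complex.log (w + x)) with hg
  set f : ℂ → ℂ := fun w => g w * S w with hf
  have hre : ∀ w : ℂ, 0 ≤ w.re → x ≤ (w + x).re := by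
    intro w hw
    rw [add_re, ofReal_re]
    linarith
  have hnx : ∀ w : ℂ, 0 ≤ w.re → x ≤ ‖w + x‖ := fun w hw =>
    (hre w hw).trans (Complex.re_le_norm _)
  have hgn : ∀ w : ℂ, ‖g w‖ = Real.exp (-(K / 2 : ℝ) * Real.log ‖w + x‖) := by
    intro w
    rw [hg]
    simp only
    rw [Complex.norm_exp]
    congr 1
    rw [← Complex.ofReal_neg, Complex.re_ofReal_mul, Complex.log_re]
  have hgb : ∀ w : ℂ, 0 ≤ w.re → ‖g w‖ ≤ Real.exp (-(K / 2 : ℝ) * Real.log x) := by
    intro w hw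
    rw [hgn]
    apply Real.exp_le_exp.2
    have h1 := Real.log_le_log hx (hnx w hw)
    have h2 : (0 : ℝ) ≤ K / 2 := by positivity
    nlinarith
  have hSb : ∀ w : ℂ, 0 ≤ w.re → ‖S w‖ ≤ ∑ i, ∑ k, ‖φ i‖ * ‖X i k‖ * ‖ψ k‖ := by
    intro w hw
    refine (norm_sum_le _ _).trans (Finset.sum_le_sum fun i _ => ?_)
    refine (norm_sum_le _ _).trans (Finset.sum_le_sum fun k _ => ?_)
    by_cases h0 : X i k = 0
    · rw [h0]
      simp
    · rw [norm_mul, norm_mul, norm_mul, Complex.norm_exp]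
      have h1 : (-(w + x) * ((dsq (a i) (b k) - U : ℝ) : ℂ)).re ≤ 0 := by
        rw [Complex.re_mul_ofReal, neg_re]
        have h2 := hre w hw
        have h3 := hfar i k h0
        nlinarith
      have h2 : Real.exp ((-(w + x) * ((dsq (a i) (b k) - U : ℝ) : ℂ)).re) ≤ 1 :=
        Real.exp_le_one_iff.2 h1
      have h3 : Real.exp ((-(w + x) * ((dsq (a i) (b k) - U : ℝ) : ℂ)).re) * ‖X i k‖ ≤
          1 * ‖X i k‖ := mul_le_mul_of_nonneg_right h2 (norm_nonneg _)
      rw [one_mul] at h3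
      gcongr
  set M : ℝ := Real.exp (-(K / 2 : ℝ) * Real.log x) * ∑ i, ∑ k, ‖φ i‖ * ‖X i k‖ * ‖ψ k‖ with hM
  have hfb : ∀ w : ℂ, 0 ≤ w.re → ‖f w‖ ≤ M := by
    intro w hw
    rw [hf]
    simp only
    rw [norm_mul]
    exact mul_le_mul (hgb w hw) (hSb w hw) (norm_nonneg _) (Real.exp_pos _).le
  -- the bound on the imaginary axis
  have him : ∀ y : ℝ, ‖f (y * I)‖ ≤ Real.exp (x * U) * Real.exp (-(K / 2 : ℝ) * Real.log x) *
      (c * N) := by
    intro y
    have hzre : ((y : ℂ) * I + x).re = x := by simp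
    have hz : 0 < ((y : ℂ) * I + x).re := by rw [hzre]; exact hx
    have h1 := hX.gaussK hz a b φ ψ
    rw [hzre] at h1
    have hzn : 0 < ‖(y : ℂ) * I + x‖ := lt_of_lt_of_le hz (Complex.re_le_norm _)
    have h2 : S (y * I) = cexp (((y : ℂ) * I + x) * U) * ∑ i, ∑ k, φ i *
        (cexp (-((y : ℂ) * I + x) * ((∑ J, (a i J - b k J) ^ 2 : ℝ) : ℂ)) * X i k) * ψ k := by
      rw [hS]
      simp only
      rw [Finset.mul_sum]
      refine Finset.sum_congr rfl fun i _ => ?_
      rw [Finset.mul_sum]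
      refine Finset.sum_congr rfl fun k _ => ?_
      have h3 : cexp (-((y : ℂ) * I + x) * ((dsq (a i) (b k) - U : ℝ) : ℂ)) =
          cexp (((y : ℂ) * I + x) * U) *
            cexp (-((y : ℂ) * I + x) * ((∑ J, (a i J - b k J) ^ 2 : ℝ) : ℂ)) := by
        rw [← Complex.exp_add]
        congr 1
        unfold dsq
        push_cast
        ring
      rw [h3]
      ring
    have h3 : ‖cexp (((y : ℂ) * I + x) * U)‖ = Real.exp (x * U) := by
      rw [Complex.norm_exp]
      congr 1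
      rw [Complex.re_mul_ofReal, hzre]
    rw [hf]
    simp only
    rw [h2, norm_mul, norm_mul, h3, hgn]
    rw [sqrt_pow_eq (by positivity), Real.log_div hzn.ne' hx.ne'] at h1
    set L := Real.log ‖(y : ℂ) * I + x‖
    set Q := ‖∑ i, ∑ k, φ i *
        (cexp (-((y : ℂ) * I + x) * ((∑ J, (a i J - b k J) ^ 2 : ℝ) : ℂ)) * X i k) * ψ k‖
    calc Real.exp (-(K / 2 : ℝ) * L) * (Real.exp (x * U) * Q)
        ≤ Real.exp (-(K / 2 : ℝ) * L) * (Real.exp (x * U) *
            (Real.exp ((K / 2 : ℝ) * (L - Real.log x)) * c * N)) := by gcongr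
      _ = Real.exp (x * U) * (Real.exp (-(K / 2 : ℝ) * L) *
            Real.exp ((K / 2 : ℝ) * (L - Real.log x))) * (c * N) := by ring
      _ = Real.exp (x * U) * Real.exp (-(K / 2 : ℝ) * Real.log x) * (c * N) := by
          rw [← Real.exp_add]
          congr 3
          ring
  -- Phragmen-Lindelof
  have hd : DiffContOnCl ℂ f {z | 0 < z.re} := by
    apply DifferentiableOn.diffContOnCl
    intro w hw
    have hw' : 0 ≤ w.re := by
      have h1 : closure {z : ℂ | 0 < z.re} ⊆ {z : ℂ | 0 ≤ z.re} :=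
        closure_minimal (fun z (hz : 0 < z.re) => (hz.le : 0 ≤ z.re))
          (isClosed_le continuous_const Complex.continuous_re)
      exact h1 hw
    have h1 : w + x ∈ Complex.slitPlane :=
      Or.inl (lt_of_lt_of_le hx (hre w hw'))
    have h2 : DifferentiableAt ℂ g w := by
      rw [hg]
      exact (((differentiableAt_id.add_const (x : ℂ)).clog h1).const_mul _).cexp
    have h3 : DifferentiableAt ℂ S w := by
      rw [hS]
      fun_prop
    exact (h2.mul h3).differentiableWithinAt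
  have hexp : ∃ c < (2 : ℝ), ∃ B,
      f =O[Bornology.cobounded ℂ ⊓ 𝓟 {z | 0 < z.re}] fun z => Real.exp (B * ‖z‖ ^ c) := by
    refine ⟨1, by norm_num, 0, ?_⟩
    refine Asymptotics.IsBigO.of_bound M ?_
    rw [Filter.eventually_inf_principal]
    refine Eventually.of_forall fun w hw => ?_
    rw [zero_mul, Real.exp_zero, norm_one, mul_one]
    exact hfb w (le_of_lt hw)
  have hreal : IsBoundedUnder (· ≤ ·) atTop fun t : ℝ => ‖f t‖ := by
    refine ⟨M, ?_⟩
    rw [eventually_map]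
    filter_upwards [eventually_ge_atTop (0 : ℝ)] with t ht
    exact hfb t (by simpa using ht)
  have hmain := PhragmenLindelof.right_half_plane_of_bounded_on_real hd hexp hreal him
    (z := ((l - x : ℝ) : ℂ)) (by rw [Complex.ofReal_re]; linarith)
  have hlx : (((l - x : ℝ) : ℂ) + x) = (l : ℂ) := by push_cast; ring
  have h1 : ‖g ((l - x : ℝ) : ℂ)‖ = Real.exp (-(K / 2 : ℝ) * Real.log l) := by
    rw [hgn, hlx, Complex.norm_real, Real.norm_eq_abs, abs_of_pos hl]
  have h2 : S ((l - x : ℝ) : ℂ) = (Real.exp (l * U) : ℂ) *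
      ∑ i, ∑ k, φ i * ((Real.exp (-l * dsq (a i) (b k)) : ℂ) * X i k) * ψ k := by
    rw [hS]
    simp only
    rw [hlx, Finset.mul_sum]
    refine Finset.sum_congr rfl fun i _ => ?_
    rw [Finset.mul_sum]
    refine Finset.sum_congr rfl fun k _ => ?_
    have h3 : cexp (-(l : ℂ) * ((dsq (a i) (b k) - U : ℝ) : ℂ)) =
        (Real.exp (l * U) : ℂ) * (Real.exp (-l * dsq (a i) (b k)) : ℂ) := by
      rw [← Complex.ofReal_mul, ← Real.exp_add]
      push_cast
      congr 1
      ring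
    rw [h3]
    ring
  set Q := ‖∑ i, ∑ k, φ i * ((Real.exp (-l * dsq (a i) (b k)) : ℂ) * X i k) * ψ k‖ with hQ
  have h3 : ‖f ((l - x : ℝ) : ℂ)‖ =
      Real.exp (-(K / 2 : ℝ) * Real.log l) * (Real.exp (l * U) * Q) := by
    rw [hf]
    simp only
    rw [norm_mul, h1, h2, norm_mul, Complex.norm_real, Real.norm_eq_abs,
      abs_of_pos (Real.exp_pos _)]
  rw [h3] at hmain
  rw [sqrt_pow_eq (by positivity), Real.log_div hl.ne' hx.ne']
  have h4 : Q = Real.exp ((K / 2 : ℝ) * Real.log l) * Real.exp (-(l * U)) *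
      (Real.exp (-(K / 2 : ℝ) * Real.log l) * (Real.exp (l * U) * Q)) := by
    have h5 : Real.exp ((K / 2 : ℝ) * Real.log l) * Real.exp (-(K / 2 : ℝ) * Real.log l) = 1 := by
      rw [← Real.exp_add, ← Real.exp_zero]
      congr 1
      ring
    have h6 : Real.exp (-(l * U)) * Real.exp (l * U) = 1 := by
      rw [← Real.exp_add, ← Real.exp_zero]
      congr 1
      ring
    calc Q = (Real.exp ((K / 2 : ℝ) * Real.log l) * Real.exp (-(K / 2 : ℝ) * Real.log l)) *
          (Real.exp (-(l * U)) * Real.exp (l * U)) * Q := by rw [h5, h6]; ring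
      _ = _ := by ring
  rw [h4]
  calc Real.exp ((K / 2 : ℝ) * Real.log l) * Real.exp (-(l * U)) *
      (Real.exp (-(K / 2 : ℝ) * Real.log l) * (Real.exp (l * U) * Q))
      ≤ Real.exp ((K / 2 : ℝ) * Real.log l) * Real.exp (-(l * U)) *
        (Real.exp (x * U) * Real.exp (-(K / 2 : ℝ) * Real.log x) * (c * N)) := by gcongr
    _ = (Real.exp (-(l * U)) * Real.exp (x * U)) * (Real.exp ((K / 2 : ℝ) * Real.log l) *
        Real.exp (-(K / 2 : ℝ) * Real.log x)) * c * N := by ring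
    _ = Real.exp (-(l - x) * U) * Real.exp ((K / 2 : ℝ) * (Real.log l - Real.log x)) * c * N := by
        rw [← Real.exp_add, ← Real.exp_add]
        congr 4 <;> ring

end Pool.Agent.V7H81.SV
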