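import Pool.Agent.V7H81.SV.Schur

/-!
# The Gaussian average of the intertwiner is bounded below

Let `W` have orthonormal columns and let the matrices `(a j - b k)_J W j k` have (as a column)
norm at most `η`.  Then the matrix `exp (-l |a j - b k| ^ 2) W j k` satisfies
`|T ψ| ^ 2 ≥ (1 - 2 l η ^ 2) |ψ| ^ 2`.
-/

set_option autoImplicit false

open MeasureTheory Complex

namespace Pool.Agent.V7H81.SV

variable {ι κ : Type*} [Fintype ι] [Fintype κ]

lemma BB.gram {X : ι → κ → ℂ} {c : ℝ} (hc : 0 < c) (hX : BB X c) :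
    BB (fun k l => ∑ i, (starRingEnd ℂ) (X i k) * X i l) (c ^ 2) := by
  intro φ ψ
  have h1 : ∑ k, ∑ l, φ k * (∑ i, (starRingEnd ℂ) (X i k) * X i l) * ψ l =
      ∑ i, (∑ k, (starRingEnd ℂ) (X i k) * φ k) * (∑ l, X i l * ψ l) := by
    simp_rw [Finset.sum_mul_sum, Finset.mul_sum, Finset.sum_mul]
    rw [Finset.sum_comm' (t' := Finset.univ) (s' := fun _ => Finset.univ) (by simp)]
    have : ∀ l : κ, ∑ k, ∑ i, φ k * ((starRingEnd ℂ) (X i k) * X i l) * ψ l =
        ∑ i, ∑ k, φ k * ((starRingEnd ℂ) (X i k) * X i l) * ψ l := fun l => Finset.sum_comm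
    simp_rw [this]
    rw [Finset.sum_comm]
    refine Finset.sum_congr rfl fun i _ => ?_
    rw [Finset.sum_comm]
    refine Finset.sum_congr rfl fun k _ => ?_
    refine Finset.sum_congr rfl fun l _ => ?_
    ring
  rw [h1]
  have h2 : ∑ i, ‖∑ l, X i l * ψ l‖ ^ 2 ≤ c ^ 2 * ∑ k, ‖ψ k‖ ^ 2 := hX.sq hc ψ
  have h3 : ∑ i, ‖∑ k, (starRingEnd ℂ) (X i k) * φ k‖ ^ 2 ≤ c ^ 2 * ∑ k, ‖φ k‖ ^ 2 := by
    have h4 := hX.sq hc (fun k => (starRingEnd ℂ) (φ k))
    have h5 : ∀ i, ‖∑ k, (starRingEnd ℂ) (X i k) * φ k‖ =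
        ‖∑ k, X i k * (starRingEnd ℂ) (φ k)‖ := by
      intro i
      rw [← Complex.norm_conj, map_sum]
      congr 1
      refine Finset.sum_congr rfl fun k _ => ?_
      rw [map_mul, Complex.conj_conj]
    simp_rw [h5]
    refine h4.trans (le_of_eq ?_)
    congr 1
    refine Finset.sum_congr rfl fun k _ => ?_
    rw [Complex.norm_conj]
  calc ‖∑ i, (∑ k, (starRingEnd ℂ) (X i k) * φ k) * (∑ l, X i l * ψ l)‖
      ≤ ∑ i, ‖(∑ k, (starRingEnd ℂ) (X i k) * φ k) * (∑ l, X i l * ψ l)‖ := norm_sum_le _ _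
    _ ≤ ∑ i, (‖∑ k, (starRingEnd ℂ) (X i k) * φ k‖ ^ 2 + ‖∑ l, X i l * ψ l‖ ^ 2) / 2 := by
        refine Finset.sum_le_sum fun i _ => ?_
        rw [norm_mul]
        nlinarith [sq_nonneg (‖∑ k, (starRingEnd ℂ) (X i k) * φ k‖ - ‖∑ l, X i l * ψ l‖)]
    _ = (∑ i, ‖∑ k, (starRingEnd ℂ) (X i k) * φ k‖ ^ 2 + ∑ i, ‖∑ l, X i l * ψ l‖ ^ 2) / 2 := by
        rw [← Finset.sum_div, Finset.sum_add_distrib]
    _ ≤ (c ^ 2 * ∑ k, ‖φ k‖ ^ 2 + c ^ 2 * ∑ k, ‖ψ k‖ ^ 2) / 2 := by gcongr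
    _ = c ^ 2 * ((∑ k, ‖φ k‖ ^ 2 + ∑ k, ‖ψ k‖ ^ 2) / 2) := by ring

lemma sqrt_ratio_ofReal {s : ℝ} (hs : 0 < s) : √(‖(s : ℂ)‖ / (s : ℂ).re) = 1 := by
  rw [Complex.norm_real, Real.norm_eq_abs, abs_of_pos hs, Complex.ofReal_re, div_self hs.ne',
    Real.sqrt_one]

/-- the squared distance -/
def dsq {K : ℕ} (a b : Fin K → ℝ) : ℝ := ∑ J, (a J - b J) ^ 2

lemma dsq_nonneg {K : ℕ} (a b : Fin K → ℝ) : 0 ≤ dsq a b :=
  Finset.sum_nonneg fun _ _ => sq_nonneg _

/-- the family of the matrices `(a j - b k)_J W j k` -/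
def fam {K : ℕ} (a : ι → Fin K → ℝ) (b : κ → Fin K → ℝ) (W : ι → κ → ℂ) :
    (Fin K × ι) → κ → ℂ :=
  fun p k => ((a p.2 p.1 - b k p.1 : ℝ) : ℂ) * W p.2 k

section

variable {K : ℕ} (a : ι → Fin K → ℝ) (b : κ → Fin K → ℝ) (W : ι → κ → ℂ) (ψ : κ → ℂ) (l : ℝ)

/-- exponent -/
def ex (s : ℝ) (j : ι) (k m : κ) : ℝ :=
  -s * (dsq (a j) (b k) + dsq (a j) (b m)) - (l - s) * dsq (b k) (b m)

/-- the interpolating function -/
noncomputable def gg (s : ℝ) : ℝ :=
  ∑ j, ∑ k, ∑ m, ((starRingEnd ℂ) (W j k * ψ k) * (W j m * ψ m)).re *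
    Real.exp (ex a b l s j k m)

/-- the inner products -/
def ip (j : ι) (k m : κ) : ℝ := ∑ J, (a j J - b k J) * (a j J - b m J)

/-- minus half of its derivative -/
noncomputable def hh (s : ℝ) : ℝ :=
  ∑ j, ∑ k, ∑ m, ((starRingEnd ℂ) (W j k * ψ k) * (W j m * ψ m)).re *
    (ip a b j k m * Real.exp (ex a b l s j k m))

lemma dsq_ip (j : ι) (k m : κ) :
    dsq (a j) (b k) + dsq (a j) (b m) - dsq (b k) (b m) = 2 * ip a b j k m := by
  unfold dsq ip
  rw [← Finset.sum_add_distrib, ← Finset.sum_sub_distrib, Finset.mul_sum]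
  refine Finset.sum_congr rfl fun J _ => ?_
  ring

lemma hasDerivAt_gg (s : ℝ) : HasDerivAt (gg a b W ψ l) (-2 * hh a b W ψ l s) s := by
  have h1 : ∀ j k m, HasDerivAt (fun s => Real.exp (ex a b l s j k m))
      (-2 * (ip a b j k m * Real.exp (ex a b l s j k m))) s := by
    intro j k m
    have h2 : HasDerivAt (fun s => ex a b l s j k m) (-2 * ip a b j k m) s := by
      unfold ex
      have h3 : HasDerivAt (fun s : ℝ => -s * (dsq (a j) (b k) + dsq (a j) (b m)) -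
          (l - s) * dsq (b k) (b m))
          (-1 * (dsq (a j) (b k) + dsq (a j) (b m)) - (-1) * dsq (b k) (b m)) s := by
        refine HasDerivAt.sub ?_ ?_
        · exact ((hasDerivAt_id s).neg).mul_const _
        · have h4 : HasDerivAt (fun s : ℝ => l - s) (-1) s := by
            simpa using (hasDerivAt_id s).const_sub l
          exact h4.mul_const _
      have h5 := dsq_ip a b j k m
      have h6 : -1 * (dsq (a j) (b k) + dsq (a j) (b m)) - (-1) * dsq (b k) (b m) =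
          -2 * ip a b j k m := by linarith
      rw [h6] at h3
      exact h3
    have h7 := h2.exp
    have h8 : Real.exp (ex a b l s j k m) * (-2 * ip a b j k m) =
        -2 * (ip a b j k m * Real.exp (ex a b l s j k m)) := by ring
    rw [h8] at h7
    exact h7
  unfold gg
  have h2 : -2 * hh a b W ψ l s = ∑ j, ∑ k, ∑ m,
      ((starRingEnd ℂ) (W j k * ψ k) * (W j m * ψ m)).re *
        (-2 * (ip a b j k m * Real.exp (ex a b l s j k m))) := by
    unfold hh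
    rw [Finset.mul_sum]
    refine Finset.sum_congr rfl fun j _ => ?_
    rw [Finset.mul_sum]
    refine Finset.sum_congr rfl fun k _ => ?_
    rw [Finset.mul_sum]
    refine Finset.sum_congr rfl fun m _ => ?_
    ring
  rw [h2]
  refine HasDerivAt.fun_sum fun j _ => HasDerivAt.fun_sum fun k _ => HasDerivAt.fun_sum fun m _ => ?_
  exact (h1 j k m).const_mul _

/-- the value at `l` -/
lemma gg_right : gg a b W ψ l l =
    ∑ j, ‖∑ k, (Real.exp (-l * dsq (a j) (b k)) : ℂ) * W j k * ψ k‖ ^ 2 := by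
  unfold gg
  refine Finset.sum_congr rfl fun j _ => ?_
  have h1 : ((‖∑ k, (Real.exp (-l * dsq (a j) (b k)) : ℂ) * W j k * ψ k‖ ^ 2 : ℝ) : ℂ) =
      ∑ k, ∑ m, ((starRingEnd ℂ) (W j k * ψ k) * (W j m * ψ m)) *
        (Real.exp (ex a b l l j k m) : ℂ) := by
    push_cast
    rw [← Complex.conj_mul', map_sum, Finset.sum_mul_sum]
    refine Finset.sum_congr rfl fun k _ => Finset.sum_congr rfl fun m _ => ?_
    have h2 : Real.exp (ex a b l l j k m) =
        Real.exp (-l * dsq (a j) (b k)) * Real.exp (-l * dsq (a j) (b m)) := by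
      rw [← Real.exp_add]
      congr 1
      unfold ex
      ring
    rw [map_mul, map_mul, map_mul]
    have h3 : (starRingEnd ℂ) (cexp (-(l : ℂ) * (dsq (a j) (b k) : ℂ))) =
        (Real.exp (-l * dsq (a j) (b k)) : ℂ) := by
      rw [← Complex.exp_conj]
      push_cast
      congr 1
      simp
    rw [h3]
    have h4 : cexp (ex a b l l j k m : ℂ) = (Real.exp (ex a b l l j k m) : ℂ) := by push_cast; rfl
    rw [h4, h2]
    push_cast
    ring
  have h2 := congrArg Complex.re h1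
  rw [Complex.ofReal_re] at h2
  rw [h2, Complex.re_sum]
  refine Finset.sum_congr rfl fun k _ => ?_
  rw [Complex.re_sum]
  refine Finset.sum_congr rfl fun m _ => ?_
  rw [Complex.re_mul_ofReal]

/-- the value at `0` -/
lemma gg_left [DecidableEq κ]
    (hW : ∀ k m, ∑ j, (starRingEnd ℂ) (W j k) * W j m = if k = m then 1 else 0) :
    gg a b W ψ l 0 = ∑ k, ‖ψ k‖ ^ 2 := by
  have h1 : ∀ k m, ∑ j, ((starRingEnd ℂ) (W j k * ψ k) * (W j m * ψ m)).re *
      Real.exp (ex a b l 0 j k m) = if k = m then ‖ψ k‖ ^ 2 else 0 := by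
    intro k m
    have h2 : ∀ j, Real.exp (ex a b l 0 j k m) = Real.exp (-l * dsq (b k) (b m)) := by
      intro j
      congr 1
      unfold ex
      ring
    simp_rw [h2]
    rw [← Finset.sum_mul, ← Complex.re_sum]
    have h3 : ∑ j, (starRingEnd ℂ) (W j k * ψ k) * (W j m * ψ m) =
        (starRingEnd ℂ) (ψ k) * ψ m * ∑ j, (starRingEnd ℂ) (W j k) * W j m := by
      rw [Finset.mul_sum]
      refine Finset.sum_congr rfl fun j _ => ?_
      rw [map_mul]
      ring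
    rw [h3, hW]
    by_cases h : k = m
    · subst h
      rw [if_pos rfl, if_pos rfl, mul_one, Complex.conj_mul']
      have h4 : dsq (b k) (b k) = 0 := by
        unfold dsq
        simp
      rw [h4, mul_zero, Real.exp_zero, mul_one, ← Complex.ofReal_pow, Complex.ofReal_re]
    · rw [if_neg h, if_neg h, mul_zero, Complex.zero_re, zero_mul]
  unfold gg
  have h2 : ∑ j, ∑ k, ∑ m, ((starRingEnd ℂ) (W j k * ψ k) * (W j m * ψ m)).re *
      Real.exp (ex a b l 0 j k m) = ∑ k, ∑ m, ∑ j,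
        ((starRingEnd ℂ) (W j k * ψ k) * (W j m * ψ m)).re * Real.exp (ex a b l 0 j k m) := by
    rw [Finset.sum_comm]
    refine Finset.sum_congr rfl fun k _ => ?_
    rw [Finset.sum_comm]
  rw [h2]
  simp_rw [h1]
  refine Finset.sum_congr rfl fun k _ => ?_
  rw [Finset.sum_ite_eq Finset.univ k]
  simp

/-- the bound for the derivative -/
lemma hh_le {η : ℝ} (hη : 0 < η) (hf : BB (fam a b W) η) {s : ℝ} (hs : 0 < s) (hsl : s < l) :
    hh a b W ψ l s ≤ η ^ 2 * ∑ k, ‖ψ k‖ ^ 2 := by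
  have h1 := hf.gaussK (z := (s : ℂ)) (by simpa using hs)
    (fun p : Fin K × ι => a p.2) b
  rw [sqrt_ratio_ofReal hs, one_pow, one_mul] at h1
  have h2 := (h1.gram hη).gaussK (z := ((l - s : ℝ) : ℂ)) (by simpa using hsl) b b
  rw [sqrt_ratio_ofReal (by linarith), one_pow, one_mul] at h2
  have h3 := h2 (fun k => (starRingEnd ℂ) (ψ k)) ψ
  have h4 : ∑ k, ‖(starRingEnd ℂ) (ψ k)‖ ^ 2 = ∑ k, ‖ψ k‖ ^ 2 :=
    Finset.sum_congr rfl fun k _ => by rw [Complex.norm_conj]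
  rw [h4, add_self_div_two] at h3
  refine le_trans ?_ h3
  refine le_trans (le_of_eq ?_) (Complex.re_le_norm _)
  have h5 : ∑ k, ∑ m, (starRingEnd ℂ) (ψ k) * (cexp (-((l - s : ℝ) : ℂ) *
      ((∑ J, (b k J - b m J) ^ 2 : ℝ) : ℂ)) * ∑ p : Fin K × ι,
        (starRingEnd ℂ) (cexp (-(s : ℂ) * ((∑ J, (a p.2 J - b k J) ^ 2 : ℝ) : ℂ)) * fam a b W p k) *
        (cexp (-(s : ℂ) * ((∑ J, (a p.2 J - b m J) ^ 2 : ℝ) : ℂ)) * fam a b W p m)) * ψ m =
      ∑ k, ∑ m, ∑ j, ((starRingEnd ℂ) (W j k * ψ k) * (W j m * ψ m)) *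
        ((ip a b j k m * Real.exp (ex a b l s j k m) : ℝ) : ℂ) := by
    refine Finset.sum_congr rfl fun k _ => Finset.sum_congr rfl fun m _ => ?_
    rw [Fintype.sum_prod_type_right, Finset.mul_sum, Finset.mul_sum, Finset.sum_mul]
    refine Finset.sum_congr rfl fun j _ => ?_
    have h6 : ∀ J : Fin K, (starRingEnd ℂ) (cexp (-(s : ℂ) * ((∑ J, (a j J - b k J) ^ 2 : ℝ) : ℂ)) *
        fam a b W (J, j) k) * (cexp (-(s : ℂ) * ((∑ J, (a j J - b m J) ^ 2 : ℝ) : ℂ)) *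
        fam a b W (J, j) m) = (((a j J - b k J) * (a j J - b m J) : ℝ) : ℂ) *
          ((Real.exp (-s * dsq (a j) (b k)) * Real.exp (-s * dsq (a j) (b m)) : ℝ) : ℂ) *
          ((starRingEnd ℂ) (W j k) * W j m) := by
      intro J
      unfold fam dsq
      simp only
      rw [map_mul, map_mul, ← Complex.exp_conj]
      have h7 : (starRingEnd ℂ) (-(s : ℂ) * ((∑ J, (a j J - b k J) ^ 2 : ℝ) : ℂ)) =
          -(s : ℂ) * ((∑ J, (a j J - b k J) ^ 2 : ℝ) : ℂ) := by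
        rw [map_mul, map_neg, Complex.conj_ofReal, Complex.conj_ofReal]
      rw [h7, Complex.conj_ofReal]
      have h8 : cexp (-(s : ℂ) * ((∑ J, (a j J - b k J) ^ 2 : ℝ) : ℂ)) =
          ((Real.exp (-s * ∑ J, (a j J - b k J) ^ 2) : ℝ) : ℂ) := by push_cast; rfl
      have h9 : cexp (-(s : ℂ) * ((∑ J, (a j J - b m J) ^ 2 : ℝ) : ℂ)) =
          ((Real.exp (-s * ∑ J, (a j J - b m J) ^ 2) : ℝ) : ℂ) := by push_cast; rfl
      rw [h8, h9]
      push_cast
      ring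
    simp_rw [h6]
    rw [← Finset.sum_mul, ← Finset.sum_mul]
    have h7 : ((ip a b j k m * Real.exp (ex a b l s j k m) : ℝ) : ℂ) =
        (∑ J, (((a j J - b k J) * (a j J - b m J) : ℝ) : ℂ)) *
          (((Real.exp (-s * dsq (a j) (b k)) * Real.exp (-s * dsq (a j) (b m)) : ℝ) : ℂ) *
            cexp (-((l - s : ℝ) : ℂ) * ((∑ J, (b k J - b m J) ^ 2 : ℝ) : ℂ))) := by
      have h8 : cexp (-((l - s : ℝ) : ℂ) * ((∑ J, (b k J - b m J) ^ 2 : ℝ) : ℂ)) =
          ((Real.exp (-(l - s) * dsq (b k) (b m)) : ℝ) : ℂ) := by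
        unfold dsq
        push_cast
        rfl
      rw [h8, ← Complex.ofReal_mul, ← Complex.ofReal_sum, ← Complex.ofReal_mul]
      congr 1
      unfold ip
      congr 1
      rw [← Real.exp_add, ← Real.exp_add]
      congr 1
      unfold ex
      ring
    rw [h7, map_mul]
    ring
  rw [h5, Complex.re_sum]
  unfold hh
  rw [Finset.sum_comm]
  refine Finset.sum_congr rfl fun k _ => ?_
  rw [Finset.sum_comm, Complex.re_sum]
  refine Finset.sum_congr rfl fun m _ => ?_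
  rw [Complex.re_sum]
  refine Finset.sum_congr rfl fun j _ => ?_
  rw [Complex.re_mul_ofReal]

/-- **The lower bound.** -/
theorem lower [DecidableEq κ] {η : ℝ} (hη : 0 < η) (hf : BB (fam a b W) η)
    (hW : ∀ k m, ∑ j, (starRingEnd ℂ) (W j k) * W j m = if k = m then 1 else 0) (hl : 0 < l) :
    (1 - 2 * l * η ^ 2) * ∑ k, ‖ψ k‖ ^ 2 ≤
      ∑ j, ‖∑ k, (Real.exp (-l * dsq (a j) (b k)) : ℂ) * W j k * ψ k‖ ^ 2 := by
  rw [← gg_right a b W ψ l, ← gg_left a b W ψ l hW]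
  set C := η ^ 2 * ∑ k, ‖ψ k‖ ^ 2 with hC
  have hmono : MonotoneOn (fun s => gg a b W ψ l s + 2 * C * s) (Set.Icc 0 l) := by
    refine monotoneOn_of_deriv_nonneg (convex_Icc 0 l) ?_ ?_ ?_
    · intro s _
      exact (((hasDerivAt_gg a b W ψ l s).add ((hasDerivAt_id s).const_mul (2 * C))).continuousAt).continuousWithinAt
    · intro s _
      exact ((hasDerivAt_gg a b W ψ l s).add ((hasDerivAt_id s).const_mul (2 * C))).differentiableAt.differentiableWithinAt
    · intro s hs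
      rw [interior_Icc] at hs
      have h1 : deriv (fun s => gg a b W ψ l s + 2 * C * s) s =
          -2 * hh a b W ψ l s + 2 * C * 1 :=
        ((hasDerivAt_gg a b W ψ l s).add ((hasDerivAt_id s).const_mul (2 * C))).deriv
      rw [h1]
      have h2 := hh_le a b W ψ l hη hf hs.1 hs.2
      rw [← hC] at h2
      linarith
  have h1 := hmono (Set.left_mem_Icc.2 hl.le) (Set.right_mem_Icc.2 hl.le) hl.le
  simp only [mul_zero, add_zero] at h1
  have h2 : gg a b W ψ l 0 = ∑ k, ‖ψ k‖ ^ 2 := gg_left a b W ψ l hW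
  rw [← h2] at hC
  have h3 : (1 - 2 * l * η ^ 2) * gg a b W ψ l 0 = gg a b W ψ l 0 - 2 * C * l := by
    rw [hC]
    ring
  rw [h3]
  linarith

end

end Pool.Agent.V7H81.SV
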