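import Pool.Agent.V7H81.SV.Block

/-!
# The matching theorem

If `W` is unitary and the family `(a j - b k) * W j k` has norm at most `η`, then for every `t > 1`
and every `D` with `(t e^{1-t})^K < 1 - t K η² / D²` there is a bijection matching every `a j` with
some `b k` at distance less than `D`.
-/

set_option autoImplicit false

open Complex

namespace Pool.Agent.V7H81.SV

variable {ι : Type*} [Fintype ι]

lemma BB.unitary [DecidableEq ι] {W : ι → ι → ℂ}
    (hW : ∀ k m, ∑ j, (starRingEnd ℂ) (W j k) * W j m = if k = m then 1 else 0) : BB W 1 := by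
  refine BB.of_sq one_pos fun ψ => ?_
  have h1 : ((∑ i, ‖∑ k, W i k * ψ k‖ ^ 2 : ℝ) : ℂ) = ((∑ k, ‖ψ k‖ ^ 2 : ℝ) : ℂ) := by
    push_cast
    calc ∑ i, ((‖∑ k, W i k * ψ k‖ : ℂ)) ^ 2
        = ∑ i, ∑ k, ∑ m, (starRingEnd ℂ) (ψ k) * ψ m * ((starRingEnd ℂ) (W i k) * W i m) := by
          refine Finset.sum_congr rfl fun i _ => ?_
          rw [← Complex.conj_mul', map_sum, Finset.sum_mul]
          refine Finset.sum_congr rfl fun k _ => ?_
          rw [Finset.mul_sum]
          refine Finset.sum_congr rfl fun m _ => ?_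
          rw [map_mul]
          ring
      _ = ∑ k, ∑ m, (starRingEnd ℂ) (ψ k) * ψ m * ∑ i, (starRingEnd ℂ) (W i k) * W i m := by
          rw [Finset.sum_comm]
          refine Finset.sum_congr rfl fun k _ => ?_
          rw [Finset.sum_comm]
          refine Finset.sum_congr rfl fun m _ => ?_
          rw [Finset.mul_sum]
      _ = ∑ k, (starRingEnd ℂ) (ψ k) * ψ k := by
          refine Finset.sum_congr rfl fun k _ => ?_
          simp_rw [hW]
          simp
      _ = ∑ k, (‖ψ k‖ : ℂ) ^ 2 := by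
          refine Finset.sum_congr rfl fun k _ => ?_
          rw [Complex.conj_mul']
  have h2 : ∑ i, ‖∑ k, W i k * ψ k‖ ^ 2 = ∑ k, ‖ψ k‖ ^ 2 := by exact_mod_cast h1
  rw [h2]
  simp

lemma BB.restrict {W : ι → ι → ℂ} {c : ℝ} (hc : 0 ≤ c) (hW : BB W c) (p q : ι → Prop)
    [DecidablePred p] [DecidablePred q] :
    BB (fun j k => if p j ∧ q k then W j k else 0) c := by
  intro φ ψ
  have h1 := hW (fun j => if p j then φ j else 0) (fun k => if q k then ψ k else 0)
  have h2 : ∑ i, ∑ k, φ i * (if p i ∧ q k then W i k else 0) * ψ k =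
      ∑ i, ∑ k, (if p i then φ i else 0) * W i k * (if q k then ψ k else 0) := by
    refine Finset.sum_congr rfl fun i _ => Finset.sum_congr rfl fun k _ => ?_
    by_cases hp : p i <;> by_cases hq : q k <;> simp [hp, hq]
  rw [h2]
  refine h1.trans ?_
  refine mul_le_mul_of_nonneg_left ?_ hc
  have h3 : ∑ i, ‖(if p i then φ i else 0)‖ ^ 2 ≤ ∑ i, ‖φ i‖ ^ 2 := by
    refine Finset.sum_le_sum fun i _ => ?_
    by_cases hp : p i
    · simp [hp]
    · simp [hp]
  have h4 : ∑ k, ‖(if q k then ψ k else 0)‖ ^ 2 ≤ ∑ k, ‖ψ k‖ ^ 2 := by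
    refine Finset.sum_le_sum fun i _ => ?_
    by_cases hp : q i
    · simp [hp]
    · simp [hp]
  linarith

/-- A nonzero vector supported on `Q`, annihilated outside `P`. -/
lemma exists_kernel [DecidableEq ι] (T : ι → ι → ℂ) (P Q : Finset ι)
    (hcard : Fintype.card ι < P.card + Q.card) :
    ∃ ψ : ι → ℂ, ψ ≠ 0 ∧ (∀ k, k ∉ Q → ψ k = 0) ∧ ∀ j, j ∉ P → ∑ k, T j k * ψ k = 0 := by
  classical
  let L : ({k // k ∈ Q} → ℂ) →ₗ[ℂ] ({j // j ∉ P} → ℂ) :=
    Matrix.mulVecLin (fun j k => T j.1 k.1)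
  have h1 : Module.finrank ℂ ({j // j ∉ P} → ℂ) < Module.finrank ℂ ({k // k ∈ Q} → ℂ) := by
    rw [Module.finrank_fintype_fun_eq_card, Module.finrank_fintype_fun_eq_card]
    have h2 : Fintype.card {j // j ∉ P} = Fintype.card ι - P.card := by
      rw [Fintype.card_subtype_compl]
      simp
    have h3 : P.card ≤ Fintype.card ι := Finset.card_le_univ P
    rw [h2]
    simp only [Fintype.card_coe]
    omega
  have h2 : LinearMap.ker L ≠ ⊥ := LinearMap.ker_ne_bot_of_finrank_lt h1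
  obtain ⟨x, hx, hx0⟩ := (Submodule.ne_bot_iff _).1 h2
  refine ⟨fun k => if h : k ∈ Q then x ⟨k, h⟩ else 0, ?_, ?_, ?_⟩
  · intro h
    apply hx0
    ext ⟨k, hk⟩
    have := congrFun h k
    simpa [hk] using this
  · intro k hk
    simp [hk]
  · intro j hj
    have h3 : L x ⟨j, hj⟩ = 0 := by
      rw [LinearMap.mem_ker.1 hx]
      rfl
    have h4 : L x ⟨j, hj⟩ = ∑ k : {k // k ∈ Q}, T j k.1 * x k := rfl
    rw [h4] at h3
    refine Eq.trans ?_ h3
    rw [← Finset.sum_subset (Finset.subset_univ Q) (fun k _ hk => by simp [hk])]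
    rw [← Finset.sum_coe_sort Q]
    refine Finset.sum_congr rfl fun k _ => ?_
    simp

/-- **The matching theorem.** -/
theorem matching [DecidableEq ι] {K : ℕ} (hK : 0 < K) (a b : ι → Fin K → ℝ) (W : ι → ι → ℂ)
    {η : ℝ} (hη : 0 < η) (hf : BB (fam a b W) η)
    (hW : ∀ k m, ∑ j, (starRingEnd ℂ) (W j k) * W j m = if k = m then 1 else 0)
    {t D : ℝ} (ht : 1 < t) (hD : 0 < D)
    (hq : (t * Real.exp (1 - t)) ^ K < 1 - t * K * η ^ 2 / D ^ 2) :
    ∃ π : Equiv.Perm ι, ∀ j, dsq (a j) (b (π j)) < D ^ 2 := by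
  classical
  by_contra hcon
  set tt : ι → Finset ι := fun j => Finset.univ.filter (fun k => dsq (a j) (b k) < D ^ 2) with htt
  have hall : ¬ ∀ s : Finset ι, s.card ≤ (s.biUnion tt).card := by
    intro h
    obtain ⟨f, hf1, hf2⟩ := (Finset.all_card_le_biUnion_card_iff_exists_injective tt).1 h
    apply hcon
    refine ⟨Equiv.ofBijective f (Finite.injective_iff_bijective.1 hf1), fun j => ?_⟩
    have := hf2 j
    rw [htt] at this
    simpa using this
  push Not at hall
  obtain ⟨P, hP⟩ := hall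
  set Q : Finset ι := (P.biUnion tt)ᶜ with hQ
  have hcard : Fintype.card ι < P.card + Q.card := by
    rw [hQ, Finset.card_compl]
    have := Finset.card_le_univ (P.biUnion tt)
    omega
  have hfar : ∀ j ∈ P, ∀ k ∈ Q, D ^ 2 ≤ dsq (a j) (b k) := by
    intro j hj k hk
    by_contra h
    push Not at h
    rw [hQ, Finset.mem_compl] at hk
    apply hk
    rw [Finset.mem_biUnion]
    exact ⟨j, hj, by rw [htt]; simpa using h⟩
  have hK' : (0 : ℝ) < K := by exact_mod_cast hK
  set l : ℝ := t * K / (2 * D ^ 2) with hl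
  set x : ℝ := K / (2 * D ^ 2) with hx
  have hx0 : 0 < x := by positivity
  have hl0 : 0 < l := by positivity
  have hxl : x ≤ l := by
    rw [hl, hx]
    gcongr
    nlinarith
  set T : ι → ι → ℂ := fun j k => (Real.exp (-l * dsq (a j) (b k)) : ℂ) * W j k with hT
  obtain ⟨ψ, hψ0, hψQ, hψP⟩ := exists_kernel T P Q hcard
  have hlow := lower a b W ψ l hη hf hW hl0
  set X : ι → ι → ℂ := fun j k => if j ∈ P ∧ k ∈ Q then W j k else 0 with hX
  have hXB : BB X 1 := BB.restrict zero_le_one (BB.unitary hW) (fun j => j ∈ P) (fun k => k ∈ Q)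
  have hblock := block hXB a b (U := D ^ 2) (l := l) (x := x) (by
    intro i k hik
    rw [hX] at hik
    simp only [ne_eq, ite_eq_right_iff, Classical.not_imp] at hik
    exact hfar i hik.1.1 k hik.1.2) hx0 hxl
  set c : ℝ := Real.exp (-(l - x) * D ^ 2) * √(l / x) ^ K * 1 with hc
  have hc0 : 0 < c := by
    rw [hc]
    have : 0 < l / x := by positivity
    positivity
  have hup := hblock.sq hc0 ψ
  have hsame : ∑ j, ‖∑ k, (Real.exp (-l * dsq (a j) (b k)) : ℂ) * W j k * ψ k‖ ^ 2 =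
      ∑ j, ‖∑ k, (Real.exp (-l * dsq (a j) (b k)) : ℂ) * X j k * ψ k‖ ^ 2 := by
    refine Finset.sum_congr rfl fun j _ => ?_
    by_cases hj : j ∈ P
    · congr 2
      refine Finset.sum_congr rfl fun k _ => ?_
      by_cases hk : k ∈ Q
      · simp [hX, hj, hk]
      · simp [hψQ k hk]
    · have h1 : ∑ k, (Real.exp (-l * dsq (a j) (b k)) : ℂ) * W j k * ψ k = 0 := hψP j hj
      have h2 : ∑ k, (Real.exp (-l * dsq (a j) (b k)) : ℂ) * X j k * ψ k = 0 := by
        refine Finset.sum_eq_zero fun k _ => ?_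
        simp [hX, hj]
      rw [h1, h2]
  rw [hsame] at hlow
  have hN : 0 < ∑ k, ‖ψ k‖ ^ 2 := by
    obtain ⟨k, hk⟩ := Function.ne_iff.1 hψ0
    refine Finset.sum_pos' (fun _ _ => by positivity) ⟨k, Finset.mem_univ k, ?_⟩
    have : 0 < ‖ψ k‖ := norm_pos_iff.2 hk
    positivity
  have h1 : (1 - 2 * l * η ^ 2) * ∑ k, ‖ψ k‖ ^ 2 ≤ c ^ 2 * ∑ k, ‖ψ k‖ ^ 2 := hlow.trans hup
  have h2 : 1 - 2 * l * η ^ 2 ≤ c ^ 2 := le_of_mul_le_mul_right h1 hN
  have h3 : c ^ 2 = (t * Real.exp (1 - t)) ^ K := by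
    have h4 : l / x = t := by
      rw [hl, hx]
      field_simp
    have h5 : (l - x) * D ^ 2 = (t - 1) * K / 2 := by
      rw [hl, hx]
      field_simp
    rw [hc, h4, neg_mul, h5, mul_one, mul_pow, ← pow_mul, mul_comm K 2, pow_mul,
      Real.sq_sqrt (by linarith), mul_pow, ← Real.exp_nat_mul, ← Real.exp_nat_mul, mul_comm]
    congr 2
    push_cast
    ring
  have h4 : 2 * l * η ^ 2 = t * K * η ^ 2 / D ^ 2 := by
    rw [hl]
    field_simp
  rw [h3, h4] at h2
  linarith

end Pool.Agent.V7H81.SV
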