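import Mathlib

/-!
# Schur multipliers given by complex Gaussians

`BB X c` says that the matrix `X` has norm at most `c` (in the form of a bound for the bilinear
form).  Schur multiplication by `exp (-z (a i - b k) ^ 2)` multiplies the norm by at most
`sqrt (|z| / Re z)`.
-/

set_option autoImplicit false

open MeasureTheory Complex

namespace Pool.Agent.V7H81.SV

variable {ι κ : Type*} [Fintype ι] [Fintype κ]

/-- The matrix `X` has norm at most `c`. -/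
def BB (X : ι → κ → ℂ) (c : ℝ) : Prop :=
  ∀ (φ : ι → ℂ) (ψ : κ → ℂ),
    ‖∑ i, ∑ k, φ i * X i k * ψ k‖ ≤ c * ((∑ i, ‖φ i‖ ^ 2 + ∑ k, ‖ψ k‖ ^ 2) / 2)

lemma BB.mono {X : ι → κ → ℂ} {c c' : ℝ} (h : BB X c) (hc : c ≤ c') : BB X c' := by
  intro φ ψ
  refine (h φ ψ).trans ?_
  have : 0 ≤ (∑ i, ‖φ i‖ ^ 2 + ∑ k, ‖ψ k‖ ^ 2) / 2 := by positivity
  exact mul_le_mul_of_nonneg_right hc this

lemma BB.sq {X : ι → κ → ℂ} {c : ℝ} (hc : 0 < c) (h : BB X c) (ψ : κ → ℂ) :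
    ∑ i, ‖∑ k, X i k * ψ k‖ ^ 2 ≤ c ^ 2 * ∑ k, ‖ψ k‖ ^ 2 := by
  set v : ι → ℂ := fun i => ∑ k, X i k * ψ k with hv
  have h1 := h (fun i => ((c⁻¹ : ℝ) : ℂ) * (starRingEnd ℂ) (v i)) ψ
  have h2 : ∑ i, ∑ k, ((c⁻¹ : ℝ) : ℂ) * (starRingEnd ℂ) (v i) * X i k * ψ k =
      ((c⁻¹ * ∑ i, ‖v i‖ ^ 2 : ℝ) : ℂ) := by
    push_cast
    rw [Finset.mul_sum]
    refine Finset.sum_congr rfl fun i _ => ?_
    have : ∑ k, ((c : ℂ)⁻¹) * (starRingEnd ℂ) (v i) * X i k * ψ k =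
        (c : ℂ)⁻¹ * ((starRingEnd ℂ) (v i) * v i) := by
      rw [hv]
      simp only
      rw [Finset.mul_sum, Finset.mul_sum]
      refine Finset.sum_congr rfl fun k _ => ?_
      ring
    rw [this, Complex.conj_mul']
  have h3 : ∑ i, ‖((c⁻¹ : ℝ) : ℂ) * (starRingEnd ℂ) (v i)‖ ^ 2 = (c⁻¹) ^ 2 * ∑ i, ‖v i‖ ^ 2 := by
    rw [Finset.mul_sum]
    refine Finset.sum_congr rfl fun i _ => ?_
    rw [norm_mul, Complex.norm_real, Real.norm_eq_abs, mul_pow, sq_abs]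
    congr 2
    exact Complex.norm_conj _
  rw [h2, h3, Complex.norm_real, Real.norm_eq_abs, abs_of_nonneg (by positivity)] at h1
  set S := ∑ i, ‖v i‖ ^ 2
  set P := ∑ k, ‖ψ k‖ ^ 2
  have h4 : c⁻¹ * S ≤ (c⁻¹ * S + c * P) / 2 := by
    calc c⁻¹ * S ≤ c * ((c⁻¹ ^ 2 * S + P) / 2) := h1
      _ = (c⁻¹ * S + c * P) / 2 := by field_simp
  have h5 : c⁻¹ * S ≤ c * P := by linarith
  have h6 : S ≤ c * (c * P) := by
    rw [inv_mul_le_iff₀ hc] at h5
    exact h5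
  calc S ≤ c * (c * P) := h6
    _ = c ^ 2 * P := by ring

lemma BB.of_sq {X : ι → κ → ℂ} {c : ℝ} (hc : 0 < c)
    (h : ∀ ψ : κ → ℂ, ∑ i, ‖∑ k, X i k * ψ k‖ ^ 2 ≤ c ^ 2 * ∑ k, ‖ψ k‖ ^ 2) : BB X c := by
  intro φ ψ
  set v : ι → ℂ := fun i => ∑ k, X i k * ψ k with hv
  have h1 : ∑ i, ∑ k, φ i * X i k * ψ k = ∑ i, φ i * v i := by
    refine Finset.sum_congr rfl fun i _ => ?_
    rw [hv]
    simp only
    rw [Finset.mul_sum]
    refine Finset.sum_congr rfl fun k _ => ?_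
    ring
  rw [h1]
  have h2 : ‖∑ i, φ i * v i‖ ≤ ∑ i, (c * ‖φ i‖ ^ 2 + c⁻¹ * ‖v i‖ ^ 2) / 2 := by
    refine (norm_sum_le _ _).trans (Finset.sum_le_sum fun i _ => ?_)
    rw [norm_mul]
    have h3 : 0 ≤ (c * ‖φ i‖ - ‖v i‖) ^ 2 := sq_nonneg _
    have h4 : (c * ‖φ i‖ ^ 2 + c⁻¹ * ‖v i‖ ^ 2) / 2 - ‖φ i‖ * ‖v i‖ =
        c⁻¹ * (c * ‖φ i‖ - ‖v i‖) ^ 2 / 2 := by
      field_simp
      ring
    have h5 : 0 ≤ c⁻¹ * (c * ‖φ i‖ - ‖v i‖) ^ 2 / 2 := by positivity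
    linarith
  refine h2.trans ?_
  have h3 : ∑ i, (c * ‖φ i‖ ^ 2 + c⁻¹ * ‖v i‖ ^ 2) / 2 =
      (c * ∑ i, ‖φ i‖ ^ 2 + c⁻¹ * ∑ i, ‖v i‖ ^ 2) / 2 := by
    rw [← Finset.sum_div, Finset.sum_add_distrib, Finset.mul_sum, Finset.mul_sum]
  rw [h3]
  have h4 : c⁻¹ * ∑ i, ‖v i‖ ^ 2 ≤ c * ∑ k, ‖ψ k‖ ^ 2 := by
    rw [inv_mul_le_iff₀ hc]
    calc ∑ i, ‖v i‖ ^ 2 ≤ c ^ 2 * ∑ k, ‖ψ k‖ ^ 2 := h ψ
      _ = c * (c * ∑ k, ‖ψ k‖ ^ 2) := by ring
  linarith

/-- the Gaussian integral -/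
lemma gauss_int {z : ℂ} (hz : 0 < z.re) (a b : ℝ) :
    ∫ t : ℝ, cexp (-(2 * z) * ((a : ℂ) - t) ^ 2) * cexp (-(2 * z) * ((b : ℂ) - t) ^ 2) =
      (Real.pi / (4 * z)) ^ (1 / 2 : ℂ) * cexp (-z * ((a : ℂ) - b) ^ 2) := by
  have hb : (-(4 * z)).re < 0 := by
    simp only [neg_re, mul_re, re_ofNat, im_ofNat, zero_mul, sub_zero]
    linarith
  have hz0 : z ≠ 0 := by
    intro h
    rw [h] at hz
    simp at hz
  have h1 := integral_cexp_quadratic hb (4 * z * (a + b)) (-(2 * z) * ((a : ℂ) ^ 2 + b ^ 2))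
  have h2 : (fun t : ℝ => cexp (-(2 * z) * ((a : ℂ) - t) ^ 2) * cexp (-(2 * z) * ((b : ℂ) - t) ^ 2)) =
      fun t : ℝ => cexp (-(4 * z) * (t : ℂ) ^ 2 + 4 * z * (a + b) * t +
        -(2 * z) * ((a : ℂ) ^ 2 + b ^ 2)) := by
    funext t
    rw [← Complex.exp_add]
    congr 1
    ring
  rw [h2, h1, neg_neg]
  congr 2
  field_simp
  ring

lemma norm_e (z : ℂ) (a t : ℝ) :
    ‖cexp (-(2 * z) * ((a : ℂ) - t) ^ 2)‖ = Real.exp (-(2 * z.re) * (a - t) ^ 2) := by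
  rw [Complex.norm_exp]
  congr 1
  have : ((a : ℂ) - t) ^ 2 = (((a - t) ^ 2 : ℝ) : ℂ) := by push_cast; ring
  rw [this, Complex.re_mul_ofReal]
  simp

lemma norm_e_sq (z : ℂ) (a t : ℝ) :
    ‖cexp (-(2 * z) * ((a : ℂ) - t) ^ 2)‖ ^ 2 = Real.exp (-(4 * z.re) * (t - a) ^ 2) := by
  rw [norm_e, ← Real.exp_nat_mul]
  congr 1
  push_cast
  ring

lemma integrable_e_sq {z : ℂ} (hz : 0 < z.re) (a : ℝ) :
    Integrable (fun t : ℝ => ‖cexp (-(2 * z) * ((a : ℂ) - t) ^ 2)‖ ^ 2) := by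
  simp_rw [norm_e_sq]
  have h := (integrable_exp_neg_mul_sq (b := 4 * z.re) (by linarith)).comp_sub_right a
  exact h

lemma integral_e_sq (z : ℂ) (a : ℝ) :
    ∫ t : ℝ, ‖cexp (-(2 * z) * ((a : ℂ) - t) ^ 2)‖ ^ 2 = √(Real.pi / (4 * z.re)) := by
  simp_rw [norm_e_sq]
  rw [← integral_gaussian (4 * z.re)]
  exact integral_sub_right_eq_self (fun t : ℝ => Real.exp (-(4 * z.re) * t ^ 2)) a

lemma norm_c0 {z : ℂ} (hz : 0 < z.re) :
    ‖(Real.pi / (4 * z)) ^ (1 / 2 : ℂ)‖ = √(Real.pi / (4 * ‖z‖)) := by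
  have hz0 : z ≠ 0 := by
    intro h
    rw [h] at hz
    simp at hz
  have h1 : (((Real.pi : ℂ) / (4 * z)) ^ (1 / 2 : ℂ)) ^ 2 = (Real.pi : ℂ) / (4 * z) := by
    rw [one_div]
    exact Complex.cpow_ofNat_inv_pow _ 2
  have h2 : ‖(Real.pi / (4 * z)) ^ (1 / 2 : ℂ)‖ ^ 2 = Real.pi / (4 * ‖z‖) := by
    rw [← norm_pow, h1, norm_div, norm_mul, Complex.norm_real, Real.norm_eq_abs,
      abs_of_pos Real.pi_pos]
    simp
  rw [← h2, Real.sqrt_sq (norm_nonneg _)]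

/-- **One variable.** -/
lemma BB.gauss1 {X : ι → κ → ℂ} {c : ℝ} (hX : BB X c) {z : ℂ} (hz : 0 < z.re)
    (a : ι → ℝ) (b : κ → ℝ) :
    BB (fun i k => cexp (-z * ((a i : ℂ) - b k) ^ 2) * X i k) (√(‖z‖ / z.re) * c) := by
  intro φ ψ
  have hz0 : z ≠ 0 := by
    intro h
    rw [h] at hz
    simp at hz
  have hzn : 0 < ‖z‖ := norm_pos_iff.2 hz0
  set e : ℝ → ℝ → ℂ := fun a t => cexp (-(2 * z) * ((a : ℂ) - t) ^ 2) with he
  set c0 : ℂ := (Real.pi / (4 * z)) ^ (1 / 2 : ℂ) with hc0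
  have hc0n : ‖c0‖ = √(Real.pi / (4 * ‖z‖)) := norm_c0 hz
  have hc0p : 0 < ‖c0‖ := by
    rw [hc0n]
    exact Real.sqrt_pos.2 (by positivity)
  have hint : ∀ i k, Integrable (fun t : ℝ => e (a i) t * e (b k) t) := by
    intro i k
    have h1 : (fun t : ℝ => e (a i) t * e (b k) t) =
        fun t : ℝ => cexp (-(4 * z) * (t : ℂ) ^ 2 + 4 * z * (a i + b k) * t +
          -(2 * z) * ((a i : ℂ) ^ 2 + b k ^ 2)) := by
      funext t
      rw [he]
      simp only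
      rw [← Complex.exp_add]
      congr 1
      ring
    rw [h1]
    exact integrable_cexp_quadratic' (by
      simp only [neg_re, mul_re, re_ofNat, im_ofNat, zero_mul, sub_zero]
      linarith) _ _
  have key : c0 * ∑ i, ∑ k, φ i * (cexp (-z * ((a i : ℂ) - b k) ^ 2) * X i k) * ψ k =
      ∫ t : ℝ, ∑ i, ∑ k, (φ i * e (a i) t) * X i k * (e (b k) t * ψ k) := by
    rw [integral_finsetSum]
    · rw [Finset.mul_sum]
      refine Finset.sum_congr rfl fun i _ => ?_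
      rw [integral_finsetSum]
      · rw [Finset.mul_sum]
        refine Finset.sum_congr rfl fun k _ => ?_
        have h1 : (fun t : ℝ => (φ i * e (a i) t) * X i k * (e (b k) t * ψ k)) =
            fun t : ℝ => (φ i * X i k * ψ k) * (e (a i) t * e (b k) t) := by
          funext t
          ring
        rw [h1, integral_const_mul, he]
        simp only
        rw [gauss_int hz, ← hc0]
        ring
      · intro k _
        have h1 : (fun t : ℝ => (φ i * e (a i) t) * X i k * (e (b k) t * ψ k)) =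
            fun t : ℝ => (φ i * X i k * ψ k) * (e (a i) t * e (b k) t) := by
          funext t
          ring
        rw [h1]
        exact (hint i k).const_mul _
    · intro i _
      refine integrable_finsetSum _ fun k _ => ?_
      have h1 : (fun t : ℝ => (φ i * e (a i) t) * X i k * (e (b k) t * ψ k)) =
          fun t : ℝ => (φ i * X i k * ψ k) * (e (a i) t * e (b k) t) := by
        funext t
        ring
      rw [h1]
      exact (hint i k).const_mul _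
  have hbound : ‖∫ t : ℝ, ∑ i, ∑ k, (φ i * e (a i) t) * X i k * (e (b k) t * ψ k)‖ ≤
      ∫ t : ℝ, c * ((∑ i, ‖φ i‖ ^ 2 * ‖e (a i) t‖ ^ 2 + ∑ k, ‖ψ k‖ ^ 2 * ‖e (b k) t‖ ^ 2) / 2) := by
    refine norm_integral_le_of_norm_le ?_ (Filter.Eventually.of_forall fun t => ?_)
    · refine Integrable.const_mul (Integrable.div_const (Integrable.add ?_ ?_) _) _
      · exact integrable_finsetSum _ fun i _ => (integrable_e_sq hz (a i)).const_mul _
      · exact integrable_finsetSum _ fun k _ => (integrable_e_sq hz (b k)).const_mul _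
    · have h1 := hX (fun i => φ i * e (a i) t) (fun k => e (b k) t * ψ k)
      refine h1.trans (le_of_eq ?_)
      congr 3
      · refine Finset.sum_congr rfl fun i _ => ?_
        rw [norm_mul, mul_pow]
      · refine Finset.sum_congr rfl fun k _ => ?_
        rw [norm_mul, mul_pow]
        ring
  have hval : ∫ t : ℝ, c * ((∑ i, ‖φ i‖ ^ 2 * ‖e (a i) t‖ ^ 2 +
      ∑ k, ‖ψ k‖ ^ 2 * ‖e (b k) t‖ ^ 2) / 2) =
      √(Real.pi / (4 * z.re)) * (c * ((∑ i, ‖φ i‖ ^ 2 + ∑ k, ‖ψ k‖ ^ 2) / 2)) := by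
    rw [integral_const_mul, integral_div, integral_add, integral_finsetSum, integral_finsetSum]
    · simp_rw [integral_const_mul]
      simp_rw [he, integral_e_sq]
      rw [← Finset.sum_mul, ← Finset.sum_mul]
      ring
    · exact fun k _ => (integrable_e_sq hz (b k)).const_mul _
    · exact fun i _ => (integrable_e_sq hz (a i)).const_mul _
    · exact integrable_finsetSum _ fun i _ => (integrable_e_sq hz (a i)).const_mul _
    · exact integrable_finsetSum _ fun k _ => (integrable_e_sq hz (b k)).const_mul _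
  rw [← key, hval, norm_mul] at hbound
  have hratio : √(Real.pi / (4 * z.re)) = ‖c0‖ * √(‖z‖ / z.re) := by
    rw [hc0n, ← Real.sqrt_mul (by positivity)]
    congr 1
    field_simp
  rw [hratio] at hbound
  have h3 : ‖c0‖ * ‖∑ i, ∑ k, φ i * (cexp (-z * ((a i : ℂ) - b k) ^ 2) * X i k) * ψ k‖ ≤
      ‖c0‖ * (√(‖z‖ / z.re) * c * ((∑ i, ‖φ i‖ ^ 2 + ∑ k, ‖ψ k‖ ^ 2) / 2)) := by
    refine hbound.trans (le_of_eq ?_)
    ring
  exact le_of_mul_le_mul_left h3 hc0p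

/-- **Several variables.** -/
lemma BB.gaussK {K : ℕ} {X : ι → κ → ℂ} {c : ℝ} (hX : BB X c) {z : ℂ} (hz : 0 < z.re)
    (a : ι → Fin K → ℝ) (b : κ → Fin K → ℝ) :
    BB (fun i k => cexp (-z * ((∑ J, (a i J - b k J) ^ 2 : ℝ) : ℂ)) * X i k)
      (√(‖z‖ / z.re) ^ K * c) := by
  have main : ∀ s : Finset (Fin K),
      BB (fun i k => cexp (-z * ((∑ J ∈ s, (a i J - b k J) ^ 2 : ℝ) : ℂ)) * X i k)
        (√(‖z‖ / z.re) ^ s.card * c) := by
    intro s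
    induction s using Finset.induction_on with
    | empty => simpa using hX
    | insert J s hJ ih =>
      have h1 := ih.gauss1 hz (fun i => a i J) (fun k => b k J)
      rw [Finset.card_insert_of_notMem hJ]
      have h2 : √(‖z‖ / z.re) ^ (s.card + 1) * c =
          √(‖z‖ / z.re) * (√(‖z‖ / z.re) ^ s.card * c) := by ring
      rw [h2]
      have h3 : (fun i k => cexp (-z * ((∑ J ∈ insert J s, (a i J - b k J) ^ 2 : ℝ) : ℂ)) * X i k) =
          fun i k => cexp (-z * (((a i J : ℝ) : ℂ) - (b k J : ℝ)) ^ 2) *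
            (cexp (-z * ((∑ J ∈ s, (a i J - b k J) ^ 2 : ℝ) : ℂ)) * X i k) := by
        funext i k
        rw [Finset.sum_insert hJ, ← mul_assoc, ← Complex.exp_add]
        congr 2
        push_cast
        ring
      rw [h3]
      exact h1
  have h := main Finset.univ
  rw [Finset.card_univ, Fintype.card_fin] at h
  exact h

end Pool.Agent.V7H81.SV
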